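import Pool.Agent.H60.NM.LexE
import Pool.Agent.H60.TP.Main2

set_option autoImplicit false

/-!
# Top scale: sets of all sizes

The boundary of an arbitrary set `A` of permutations of `k + 2` elements is at least the boundary of
the lexicographic initial segment of the same size minus `k * k! / 4`.
-/

open Finset Equiv Pool.H60.Transp Pool.H60.NM Pool.H60.TP

namespace Pool.H19.TA

private theorem cast_pred (c : ℕ) : ((c * (c - 1) : ℕ) : ℝ) = (c : ℝ) * ((c : ℝ) - 1) := by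
  rcases Nat.eq_zero_or_pos c with rfl | h
  · simp
  · rw [Nat.cast_mul, Nat.cast_sub h, Nat.cast_one]

/-- division with remainder, the remainder may be equal to the divisor at the end -/
private theorem split_le {f K r : ℕ} (hf : 0 < f) (hr : r ≤ (K + 1) * f) :
    ∃ c r', c ≤ K ∧ r' ≤ f ∧ r = c * f + r' := by
  rcases Nat.lt_or_ge (r / f) (K + 1) with h | h
  · exact ⟨r / f, r % f, by omega, (Nat.mod_lt _ hf).le, by rw [Nat.mul_comm]; exact (Nat.div_add_mod r f).symm⟩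
  · have h1 : (K + 1) * f ≤ r := (Nat.le_div_iff_mul_le hf).1 h
    exact ⟨K, f, le_rfl, le_rfl, by nlinarith⟩

/-- the defect of the one digit bound on an initial segment of `r ≤ k!` permutations -/
theorem defect_le (k : ℕ) : ∀ r : ℕ, r ≤ k.factorial →
    4 * ((r : ℝ) ^ 2 / (k.factorial : ℝ) + ((k : ℝ) * ((k : ℝ) - 1) / 2 - 1) * r
      - 2 * (Ef k r : ℝ)) ≤ (k : ℝ) * (k.factorial : ℝ) := by
  induction k with
  | zero =>
    intro r hr
    rw [Nat.factorial_zero] at hr ⊢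
    interval_cases r <;> simp [Ef]
  | succ k ih =>
    intro r hr
    have hf : 0 < k.factorial := Nat.factorial_pos k
    rw [Nat.factorial_succ] at hr
    obtain ⟨c, r', hc, hr', rfl⟩ := split_le hf hr
    have h1 := Ef_add (k := k) (n := k + 1) le_rfl hc hr'
    have h2 : (2 : ℝ) * (Ef (k + 1) (c * k.factorial + r') : ℝ) =
        (c : ℝ) * ((c : ℝ) - 1) * k.factorial + c * (k.factorial * ((k : ℝ) * ((k : ℝ) - 1) / 2))
          + 2 * (c * r') + 2 * (Ef k r' : ℝ) := by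
      rw [← cast_pred, ← Nat.cast_choose_two ℝ k]
      exact_mod_cast h1
    have h3 := ih r' hr'
    have hfR : (0 : ℝ) < (k.factorial : ℝ) := by exact_mod_cast hf
    have hk : (0 : ℝ) ≤ (k : ℝ) := Nat.cast_nonneg k
    rw [h2]
    obtain ⟨y, hy⟩ : ∃ y : ℝ, (r' : ℝ) = y * (k.factorial : ℝ) :=
      ⟨(r' : ℝ) / (k.factorial : ℝ), by field_simp⟩
    obtain ⟨e, he⟩ : ∃ e : ℝ, e = 2 * (Ef k r' : ℝ) := ⟨_, rfl⟩
    rw [Nat.factorial_succ]
    push_cast
    rw [← he] at h3 ⊢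
    rw [hy] at h3 ⊢
    set f : ℝ := (k.factorial : ℝ) with hfdef
    have h4 : ((c : ℝ) * f + y * f) ^ 2 / (((k : ℝ) + 1) * f) = ((c : ℝ) + y) ^ 2 * f / ((k : ℝ) + 1) := by
      field_simp
    have h5 : (y * f) ^ 2 / f = y ^ 2 * f := by
      field_simp
    rw [h4]
    rw [h5] at h3
    have h6 : 4 * (((c : ℝ) + y) ^ 2 * f / ((k : ℝ) + 1)
        + (((k : ℝ) + 1) * ((k : ℝ) + 1 - 1) / 2 - 1) * ((c : ℝ) * f + y * f)
        - ((c : ℝ) * ((c : ℝ) - 1) * f + c * (f * ((k : ℝ) * ((k : ℝ) - 1) / 2))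
          + 2 * (c * (y * f)) + e)) =
        4 * (y ^ 2 * f + ((k : ℝ) * ((k : ℝ) - 1) / 2 - 1) * (y * f) - e)
          + f * k * (4 * ((c : ℝ) + y) * ((k : ℝ) + 1 - ((c : ℝ) + y))) / ((k : ℝ) + 1) := by
      field_simp
      ring
    rw [h6]
    have h7 : f * k * (4 * ((c : ℝ) + y) * ((k : ℝ) + 1 - ((c : ℝ) + y))) / ((k : ℝ) + 1) ≤
        f * k * ((k : ℝ) + 1) := by
      rw [div_le_iff₀ (by linarith)]
      have h8 : 4 * ((c : ℝ) + y) * ((k : ℝ) + 1 - ((c : ℝ) + y)) ≤ ((k : ℝ) + 1) * ((k : ℝ) + 1) := by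
        nlinarith [sq_nonneg (2 * ((c : ℝ) + y) - ((k : ℝ) + 1))]
      have h9 : 0 ≤ f * k := mul_nonneg hfR.le hk
      calc f * k * (4 * ((c : ℝ) + y) * ((k : ℝ) + 1 - ((c : ℝ) + y)))
          ≤ f * k * (((k : ℝ) + 1) * ((k : ℝ) + 1)) := mul_le_mul_of_nonneg_left h8 h9
        _ = f * k * ((k : ℝ) + 1) * ((k : ℝ) + 1) := by ring
    nlinarith

/-- the two digit bound at a segment: `F(m) - 2 Ef (k+2) m` is the defect of the last part -/
private theorem two_digits {k c c' r : ℕ} (hc : c ≤ k + 1) (hc' : c' ≤ k)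
    (hr : r ≤ k.factorial) :
    (((c * (k + 1).factorial + (c' * k.factorial + r) : ℕ) : ℝ) ^ 2 / (k.factorial : ℝ)
      + ((k : ℝ) + 1) * ((k : ℝ) - 2) / 2 * ((c * (k + 1).factorial + (c' * k.factorial + r) : ℕ) : ℝ)
      - k * (2 * c * ((c * (k + 1).factorial + (c' * k.factorial + r) : ℕ) : ℝ)
        - c * (c + 1) * ((k + 1).factorial : ℝ)))
      - 2 * (Ef (k + 2) (c * (k + 1).factorial + (c' * k.factorial + r)) : ℝ)
    = (r : ℝ) ^ 2 / (k.factorial : ℝ) + ((k : ℝ) * ((k : ℝ) - 1) / 2 - 1) * r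
      - 2 * (Ef k r : ℝ) := by
  have hf : 0 < k.factorial := Nat.factorial_pos k
  have hr1 : c' * k.factorial + r ≤ (k + 1).factorial := by
    rw [Nat.factorial_succ, Nat.add_mul, Nat.one_mul]
    exact Nat.add_le_add (Nat.mul_le_mul_right _ hc') hr
  have h1 := Ef_add (k := k + 1) (n := k + 2) le_rfl hc hr1
  have h2 := Ef_add (k := k) (n := k + 1) le_rfl hc' hr
  have h1' : (2 : ℝ) * (Ef (k + 2) (c * (k + 1).factorial + (c' * k.factorial + r)) : ℝ) =
      (c : ℝ) * ((c : ℝ) - 1) * ((k + 1).factorial : ℝ)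
        + c * (((k + 1).factorial : ℝ) * ((((k + 1 : ℕ) : ℝ)) * (((k + 1 : ℕ) : ℝ) - 1) / 2))
        + 2 * (c * ((c' * k.factorial + r : ℕ) : ℝ)) + 2 * (Ef (k + 1) (c' * k.factorial + r) : ℝ) := by
    rw [← cast_pred, ← Nat.cast_choose_two ℝ (k + 1)]
    exact_mod_cast h1
  have h2' : (2 : ℝ) * (Ef (k + 1) (c' * k.factorial + r) : ℝ) =
      (c' : ℝ) * ((c' : ℝ) - 1) * k.factorial + c' * (k.factorial * ((k : ℝ) * ((k : ℝ) - 1) / 2))
        + 2 * (c' * r) + 2 * (Ef k r : ℝ) := by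
    rw [← cast_pred, ← Nat.cast_choose_two ℝ k]
    exact_mod_cast h2
  rw [h1', h2']
  have hfR : (0 : ℝ) < (k.factorial : ℝ) := by exact_mod_cast hf
  rw [Nat.factorial_succ]
  push_cast
  field_simp
  ring

/-- all sizes: the defect is at most `k * k! / 4` -/
theorem D_le_all {k : ℕ} (A : Finset (Perm (Fin (k + 2))))
    (h : ∀ c : ℕ, (k.factorial : ℝ) * D A
      + (k : ℝ) * (k.factorial : ℝ) * (2 * c * A.card - c * (c + 1) * ((k + 1).factorial : ℝ))
      ≤ (A.card : ℝ) ^ 2 + (k.factorial : ℝ) * (((k : ℝ) + 1) * ((k : ℝ) - 2) / 2) * A.card) :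
    4 * D A ≤ 4 * (2 * Ef (k + 2) A.card) + k * k.factorial := by
  have hle : A.card ≤ (k + 2).factorial := by
    have := Finset.card_le_univ A
    rwa [Fintype.card_perm, Fintype.card_fin] at this
  have hf : 0 < k.factorial := Nat.factorial_pos k
  have hf1 : 0 < (k + 1).factorial := Nat.factorial_pos (k + 1)
  obtain ⟨c, r1, hc, hr1, hm⟩ := split_le (K := k + 1) hf1
    (by rw [← Nat.factorial_succ]; exact hle : A.card ≤ (k + 1 + 1) * (k + 1).factorial)
  obtain ⟨c', r, hc', hr, rfl⟩ := split_le (K := k) hf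
    (by rw [← Nat.factorial_succ]; exact hr1 : r1 ≤ (k + 1) * k.factorial)
  have h1 := h c
  have h2 := two_digits hc hc' hr
  have h3 := defect_le k r hr
  rw [← hm] at h2
  have hfR : (0 : ℝ) < (k.factorial : ℝ) := by exact_mod_cast hf
  have h4 : (D A : ℝ) ≤ (A.card : ℝ) ^ 2 / (k.factorial : ℝ)
      + ((k : ℝ) + 1) * ((k : ℝ) - 2) / 2 * (A.card : ℝ)
      - k * (2 * c * (A.card : ℝ) - c * (c + 1) * ((k + 1).factorial : ℝ)) := by
    have h5 : (k.factorial : ℝ) * (D A : ℝ) ≤ (k.factorial : ℝ) * ((A.card : ℝ) ^ 2 / (k.factorial : ℝ)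
      + ((k : ℝ) + 1) * ((k : ℝ) - 2) / 2 * (A.card : ℝ)
      - k * (2 * c * (A.card : ℝ) - c * (c + 1) * ((k + 1).factorial : ℝ))) := by
      have h6 : (k.factorial : ℝ) * ((A.card : ℝ) ^ 2 / (k.factorial : ℝ)
        + ((k : ℝ) + 1) * ((k : ℝ) - 2) / 2 * (A.card : ℝ)
        - k * (2 * c * (A.card : ℝ) - c * (c + 1) * ((k + 1).factorial : ℝ))) =
          (A.card : ℝ) ^ 2 + (k.factorial : ℝ) * (((k : ℝ) + 1) * ((k : ℝ) - 2) / 2) * A.card
          - (k : ℝ) * (k.factorial : ℝ) * (2 * c * A.card - c * (c + 1) * ((k + 1).factorial : ℝ)) := by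
        field_simp
      rw [h6]
      linarith
    exact le_of_mul_le_mul_left h5 hfR
  have h5 : (4 : ℝ) * (D A : ℝ) ≤ 4 * (2 * (Ef (k + 2) A.card : ℝ)) + k * (k.factorial : ℝ) := by
    linarith
  exact_mod_cast h5

end Pool.H19.TA
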