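import Mathlib

set_option autoImplicit false

/-!
# Latin squares without intercalates

`Lat α`: there are permutations `R a` of `α`, indexed by `α`, such that no quotient of two of them
has a cycle of length one or two.
-/

open Equiv

namespace Pool.H19.TA

/-- A family of injective maps `f a`, `a ∈ α`, no quotient of which has a cycle of length 1 or 2. -/
def Lat (α : Type) : Prop :=
  ∃ f : α → α → α, (∀ a, Function.Injective (f a)) ∧
    ∀ a b x y, a ≠ b → f b x = f a y → f b y ≠ f a x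

theorem Lat.equiv {α β : Type} (e : α ≃ β) (h : Lat α) : Lat β := by
  obtain ⟨f, hf, hg⟩ := h
  refine ⟨fun a x => e (f (e.symm a) (e.symm x)), fun a x y hxy => ?_, fun a b x y hab h1 h2 => ?_⟩
  · exact e.symm.injective (hf _ (e.injective hxy))
  · exact hg (e.symm a) (e.symm b) (e.symm x) (e.symm y) (fun h => hab (e.symm.injective h))
      (e.injective h1) (e.injective h2)

theorem Lat.prod {α β : Type} (h : Lat α) (h' : Lat β) : Lat (α × β) := by
  obtain ⟨f, hf, hg⟩ := h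
  obtain ⟨f', hf', hg'⟩ := h'
  refine ⟨fun a x => (f a.1 x.1, f' a.2 x.2), fun a x y hxy => ?_, fun a b x y hab h1 h2 => ?_⟩
  · have := Prod.ext_iff.1 hxy
    exact Prod.ext (hf _ this.1) (hf' _ this.2)
  · have h3 := Prod.ext_iff.1 h1
    have h4 := Prod.ext_iff.1 h2
    by_cases h5 : a.1 = b.1
    · have h6 : a.2 ≠ b.2 := fun h => hab (Prod.ext h5 h)
      exact hg' _ _ _ _ h6 h3.2 h4.2
    · exact hg _ _ _ _ h5 h3.1 h4.1

theorem lat_fin_mul {m n : ℕ} (h : Lat (Fin m)) (h' : Lat (Fin n)) : Lat (Fin (m * n)) :=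
  (h.prod h').equiv finProdFinEquiv

theorem zmod_two_ne {s : ℕ} (hs : Odd s) {x : ZMod s} (h : 2 * x = 0) : x = 0 := by
  have hu : IsUnit (2 : ZMod s) := by
    have : ((2 : ℕ) : ZMod s) = 2 := by norm_num
    rw [← this, ZMod.isUnit_iff_coprime]
    exact (Nat.coprime_two_left).2 hs
  exact (hu.mul_right_eq_zero).1 h

theorem lat_odd {s : ℕ} (hs : Odd s) : Lat (ZMod s) := by
  refine ⟨fun a x => a + x, fun a x y h => add_left_cancel h, fun a b x y hab h1 h2 => hab ?_⟩
  have h3 : 2 * (a - b) = 0 := by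
    have h1' : b + x - (a + y) = 0 := sub_eq_zero.2 h1
    have h2' : b + y - (a + x) = 0 := sub_eq_zero.2 h2
    linear_combination -h1' - h2'
  exact sub_eq_zero.1 (zmod_two_ne hs h3)

/-- Sign `1` on the first half of `ℤ/2h` and `-1` on the second. -/
def eps (h s : ℕ) (x : ZMod (2 * h)) : ZMod s := if x.val < h then 1 else -1

/-- Indicator of the first half of `ℤ/2h`. -/
def del (h s : ℕ) (x : ZMod (2 * h)) : ZMod s := if x.val < h then 1 else 0

theorem half_cases {h : ℕ} (hh : 0 < h) {d : ZMod (2 * h)} (hd : d + d = 0) :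
    d = 0 ∨ d = (h : ZMod (2 * h)) := by
  have : NeZero (2 * h) := ⟨by omega⟩
  have h1 : (2 * h) ∣ 2 * d.val := by
    have : ((2 * d.val : ℕ) : ZMod (2 * h)) = 0 := by
      push_cast
      rw [ZMod.natCast_zmod_val]
      linear_combination hd
    exact (ZMod.natCast_eq_zero_iff _ _).1 this
  have h2 : h ∣ d.val := Nat.dvd_of_mul_dvd_mul_left (by norm_num) h1
  obtain ⟨c, hc⟩ := h2
  have h3 : d.val < 2 * h := ZMod.val_lt d
  have h4 : c < 2 := by
    by_contra h5
    have : h * 2 ≤ h * c := Nat.mul_le_mul_left h (by omega)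
    omega
  have h5 : d = ((h * c : ℕ) : ZMod (2 * h)) := by
    rw [← hc, ZMod.natCast_zmod_val]
  interval_cases c
  · left; simpa using h5
  · right; simpa using h5

theorem val_half {h : ℕ} (hh : 0 < h) (x : ZMod (2 * h)) :
    (x.val < h ∧ ¬ (x + (h : ZMod (2 * h))).val < h) ∨
      (¬ x.val < h ∧ (x + (h : ZMod (2 * h))).val < h) := by
  have : NeZero (2 * h) := ⟨by omega⟩
  have h1 : ((h : ZMod (2 * h))).val = h := by
    rw [ZMod.val_natCast, Nat.mod_eq_of_lt (by omega)]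
  have h3 : x.val < 2 * h := ZMod.val_lt x
  by_cases h2 : x.val < h
  · left
    refine ⟨h2, ?_⟩
    rw [ZMod.val_add_of_lt (by rw [h1]; omega), h1]
    omega
  · right
    refine ⟨h2, ?_⟩
    rw [ZMod.val_add, h1, Nat.mod_eq_sub_mod (by omega), Nat.mod_eq_of_lt (by omega)]
    omega

theorem eps_half {h s : ℕ} (hh : 0 < h) (x : ZMod (2 * h)) :
    eps h s (x + (h : ZMod (2 * h))) = - eps h s x := by
  unfold eps
  rcases val_half hh x with ⟨h1, h2⟩ | ⟨h1, h2⟩
  · rw [if_pos h1, if_neg h2]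
  · rw [if_neg h1, if_pos h2, neg_neg]

theorem del_half {h s : ℕ} (hh : 0 < h) (x : ZMod (2 * h)) :
    (del h s (x + (h : ZMod (2 * h))) - del h s x) ^ 2 = 1 := by
  unfold del
  rcases val_half hh x with ⟨h1, h2⟩ | ⟨h1, h2⟩
  · rw [if_pos h1, if_neg h2]; ring
  · rw [if_neg h1, if_pos h2]; ring

theorem eps_sq {h s : ℕ} (x : ZMod (2 * h)) : eps h s x ^ 2 = 1 := by
  unfold eps
  split_ifs <;> ring

theorem lat_even {h s : ℕ} (hh : 0 < h) (hs : Odd s) (hs3 : 3 ≤ s) :
    Lat (ZMod (2 * h) × ZMod s) := by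
  have : Fact (1 < s) := ⟨by omega⟩
  refine ⟨fun a x => (a.1 + x.1, eps h s x.1 * a.2 + x.2 + del h s a.1), fun a x y hxy => ?_,
    fun a b x y hab h1 h2 => ?_⟩
  · have h1 := (Prod.ext_iff.1 hxy).1
    have h2 := (Prod.ext_iff.1 hxy).2
    simp only at h1 h2
    have h3 : x.1 = y.1 := add_left_cancel h1
    rw [h3] at h2
    exact Prod.ext h3 (add_left_cancel (add_right_cancel h2))
  · have h3 := (Prod.ext_iff.1 h1).1
    have h4 := (Prod.ext_iff.1 h1).2
    have h5 := (Prod.ext_iff.1 h2).1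
    have h6 := (Prod.ext_iff.1 h2).2
    simp only at h3 h4 h5 h6
    have h7 : (y.1 - x.1) + (y.1 - x.1) = 0 := by linear_combination h5 - h3
    have hb : b.1 = a.1 + (y.1 - x.1) := by linear_combination h3
    rcases half_cases hh h7 with h8 | h8
    · have h9 : y.1 = x.1 := sub_eq_zero.1 h8
      have h10 : b.1 = a.1 := by rw [hb, h8, add_zero]
      rw [h9, h10] at h4
      rw [h9, h10] at h6
      have h11 : 2 * (eps h s x.1 * (b.2 - a.2)) = 0 := by linear_combination h4 + h6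
      have h12 := zmod_two_ne hs h11
      have h13 : b.2 - a.2 = 0 := by
        have h14 := eps_sq (h := h) (s := s) x.1
        linear_combination eps h s x.1 * h12 - (b.2 - a.2) * h14
      exact hab (Prod.ext h10.symm (sub_eq_zero.1 h13).symm)
    · have h9 : y.1 = x.1 + (h : ZMod (2 * h)) := by rw [← h8]; ring
      have h10 : b.1 = a.1 + (h : ZMod (2 * h)) := by rw [hb, h8]
      rw [h9, h10, eps_half hh] at h4
      rw [h9, h10, eps_half hh] at h6
      have h11 : 2 * (del h s (a.1 + (h : ZMod (2 * h))) - del h s a.1) = 0 := by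
        linear_combination h4 + h6
      have h12 := zmod_two_ne hs h11
      have h13 := del_half (s := s) hh a.1
      rw [h12] at h13
      simp at h13

/-- General criterion with an explicit inverse table, on natural numbers. -/
theorem lat_of_table {n : ℕ} (f g : ℕ → ℕ → ℕ)
    (h1 : ∀ a < n, ∀ x < n, f a x < n ∧ g a (f a x) = x)
    (h2 : ∀ a < n, ∀ b < n, a ≠ b → ∀ x < n, f b (g a (f b x)) ≠ f a x) : Lat (Fin n) := by
  refine ⟨fun a x => ⟨f a x, (h1 a a.2 x x.2).1⟩, fun a x y hxy => ?_, fun a b x y hab h3 h4 => ?_⟩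
  · have h3 : f a x = f a y := congrArg Fin.val hxy
    apply Fin.ext
    rw [← (h1 a a.2 x x.2).2, ← (h1 a a.2 y y.2).2, h3]
  · have h5 : f b x = f a y := congrArg Fin.val h3
    have h6 : f b y = f a x := congrArg Fin.val h4
    refine h2 a a.2 b b.2 (fun h => hab (Fin.ext h)) x x.2 ?_
    rw [h5, (h1 a a.2 y y.2).2, h6]

/-- A permutation of `0, …, 15` and its inverse, as hexadecimal digits. -/
def th (x : ℕ) : ℕ := (0xb837e5a4d1c62f90 / 16 ^ x) % 16

def thi (x : ℕ) : ℕ := (0x2b75f91ec4a8d360 / 16 ^ x) % 16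

theorem lat_16 : Lat (Fin 16) := by
  refine lat_of_table (fun a x => a ^^^ th (a ^^^ x)) (fun a x => a ^^^ thi (a ^^^ x)) ?_ ?_
  · decide +kernel
  · decide +kernel

theorem lat_8 : Lat (Fin 8) := by
  refine lat_of_table (fun a x => (0x286ae77e142e40bd3d15f394b32e43c7895a8d51f1fac688 / 8 ^ (8 * a + x)) % 8)
    (fun a x => (0x1195bdc0dee22c29ee8b0a5f77e111bd3234467d43fac688 / 8 ^ (8 * a + x)) % 8) ?_ ?_
  · decide +kernel
  · decide +kernel

theorem lat_two_pow {k : ℕ} (hk : 6 ≤ k) : Lat (Fin (2 ^ k)) := by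
  have h3 : ∀ u : ℕ, Lat (Fin (2 ^ (3 * (u + 1)))) := by
    intro u
    induction u with
    | zero => simpa using lat_8
    | succ u ih =>
      have := lat_fin_mul ih lat_8
      rwa [show 2 ^ (3 * (u + 1)) * 8 = 2 ^ (3 * (u + 1 + 1)) by
        rw [show 3 * (u + 1 + 1) = 3 * (u + 1) + 3 by ring, pow_add]; norm_num] at this
  have h4 : ∀ u : ℕ, Lat (Fin (2 ^ (3 * (u + 1) + 4))) := by
    intro u
    have := lat_fin_mul (h3 u) lat_16
    rwa [show 2 ^ (3 * (u + 1)) * 16 = 2 ^ (3 * (u + 1) + 4) by rw [pow_add]; norm_num] at this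
  have h5 : ∀ u : ℕ, Lat (Fin (2 ^ (3 * u + 8))) := by
    intro u
    rcases Nat.eq_zero_or_pos u with rfl | hu
    · have := lat_fin_mul lat_16 lat_16
      simpa using this
    · obtain ⟨w, rfl⟩ : ∃ w, u = w + 1 := ⟨u - 1, by omega⟩
      have := lat_fin_mul (h4 w) lat_16
      rwa [show 2 ^ (3 * (w + 1) + 4) * 16 = 2 ^ (3 * (w + 1) + 8) by
        rw [show 3 * (w + 1) + 8 = 3 * (w + 1) + 4 + 4 by ring, pow_add 2 (3 * (w + 1) + 4) 4]; norm_num] at this
  have h6 : k % 3 = 0 ∨ k % 3 = 1 ∨ k % 3 = 2 := by omega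
  rcases h6 with h | h | h
  · obtain ⟨u, rfl⟩ : ∃ u, k = 3 * (u + 1) := ⟨k / 3 - 1, by omega⟩
    exact h3 u
  · obtain ⟨u, rfl⟩ : ∃ u, k = 3 * (u + 1) + 4 := ⟨(k - 4) / 3 - 1, by omega⟩
    exact h4 u
  · obtain ⟨u, rfl⟩ : ∃ u, k = 3 * u + 8 := ⟨(k - 8) / 3, by omega⟩
    exact h5 u

theorem lat_all {n : ℕ} (hn : 64 ≤ n) : Lat (Fin n) := by
  obtain ⟨k, s, hs, rfl⟩ := Nat.exists_eq_two_pow_mul_odd (n := n) (by omega)
  have hs0 : 0 < s := hs.pos
  by_cases hs1 : s = 1
  · subst hs1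
    rw [mul_one] at hn ⊢
    refine lat_two_pow ?_
    by_contra hk
    have : 2 ^ k ≤ 2 ^ 5 := Nat.pow_le_pow_right (by norm_num) (by omega)
    norm_num at this
    omega
  · have hs3 : 3 ≤ s := by
      rcases hs with ⟨t, rfl⟩
      omega
    rcases Nat.eq_zero_or_pos k with rfl | hk
    · rw [pow_zero, one_mul]
      have : NeZero s := ⟨by omega⟩
      exact (lat_odd hs).equiv (ZMod.finEquiv s).toEquiv.symm
    · obtain ⟨j, rfl⟩ : ∃ j, k = j + 1 := ⟨k - 1, by omega⟩
      have h2 : 0 < 2 ^ j := by positivity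
      have : NeZero s := ⟨by omega⟩
      have : NeZero (2 * 2 ^ j) := ⟨by omega⟩
      have h3 := lat_even (h := 2 ^ j) h2 hs hs3
      have h4 := h3.equiv (Equiv.prodCongr (ZMod.finEquiv (2 * 2 ^ j)).toEquiv.symm
        (ZMod.finEquiv s).toEquiv.symm)
      have h5 := h4.equiv finProdFinEquiv
      rwa [show 2 * 2 ^ j * s = 2 ^ (j + 1) * s by ring] at h5

/-- For `n ≥ 64` there are `n` permutations of `n` points no quotient of which has a cycle of
length one or two. -/
theorem exists_lat {n : ℕ} (hn : 64 ≤ n) :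
    ∃ R : Fin n → Perm (Fin n), ∀ a b, a ≠ b → ∀ x, ((R a)⁻¹ * R b) x ≠ x ∧
      ((R a)⁻¹ * R b) (((R a)⁻¹ * R b) x) ≠ x := by
  obtain ⟨f, hf, hg⟩ := lat_all hn
  refine ⟨fun a => Equiv.ofBijective (f a) (Finite.injective_iff_bijective.1 (hf a)),
    fun a b hab x => ?_⟩
  set R : Fin n → Perm (Fin n) :=
    fun a => Equiv.ofBijective (f a) (Finite.injective_iff_bijective.1 (hf a)) with hR
  have key : ∀ x y, ((R a)⁻¹ * R b) x = y → f b x = f a y := by
    intro x y h
    have h1 : R b x = R a y := by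
      rw [← h]
      simp [Perm.mul_apply]
    exact h1
  constructor
  · intro h
    exact hg a b x x hab (key x x h) (key x x h)
  · intro h
    exact hg a b x _ hab (key x _ rfl) (key _ _ h)

end Pool.H19.TA
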