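import Pool.Agent.H19.TA.Apx
import Pool.Agent.H60.TA.Fin

set_option autoImplicit false

/-!
# Top scale: sets of all sizes, the relative form
-/

open Finset Equiv Pool.H60.Transp Pool.H60.NM Pool.H60.TP Pool.H60.TA

namespace Pool.H19.TA

/-- the boundary of the lexicographic segment -/
theorem bd_lex_eq {n m : ℕ} (hm : m ≤ n.factorial) :
    bd (lexInit n m) + 2 * Ef n m = n.choose 2 * m ∧ (lexInit n m).card = m := by
  obtain ⟨X, hX1, hX2, hX3⟩ := exists_down_E n m hm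
  have h2 := bd_add_D X
  have h3 := D_down X hX2
  rw [hX3] at h3
  have h4 := lexInit_eq X hX1 hX2
  rw [card_pairs, h3, hX1] at h2
  rw [h4]
  exact ⟨h2, hX1⟩

/-- (iii) all sizes -/
theorem bd_all {n : ℕ} (hn : 100 ≤ n) (A : Finset (Perm (Fin n))) :
    4 * bd (lexInit n A.card) ≤ 4 * bd A + (n - 2) * (n - 2).factorial := by
  obtain ⟨R, hR⟩ := exists_good_all hn
  have hm := main_bound_good (by omega : 3 ≤ n) R hR A
  have hle : A.card ≤ n.factorial := by
    have := Finset.card_le_univ A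
    rwa [Fintype.card_perm, Fintype.card_fin] at this
  have h1 := (bd_lex_eq hle).1
  have h2 := bd_add_D A
  rw [card_pairs] at h2
  obtain ⟨k, rfl⟩ : ∃ k, n = k + 2 := ⟨n - 2, by omega⟩
  have e1 : k + 2 - 2 = k := by omega
  have e2 : k + 2 - 1 = k + 1 := by omega
  have h3 := D_le_all A (fun c => by
    have h4 := hm c
    rw [e1, e2] at h4
    push_cast at h4
    have h5 : ((k : ℝ) + 2 - 2) = k := by ring
    have h6 : (((k : ℝ) + 2 - 1) * ((k : ℝ) + 2 - 4) / 2) = ((k : ℝ) + 1) * ((k : ℝ) - 2) / 2 := by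
      ring
    rw [h5, h6] at h4
    exact h4)
  rw [e1]
  omega

/-- the bound with one digit -/
private theorem bd_ge {n k : ℕ} (hk : 1 ≤ k) (X : Finset (Perm (Fin n))) :
    (X.card : ℝ) * ((n : ℝ) * ((n : ℝ) - 1) / 2 - (k : ℝ) * ((k : ℝ) - 1) / 2 + 1)
      ≤ (bd X : ℝ) + (X.card : ℝ) ^ 2 / (k.factorial : ℝ) := by
  have h1 := P_all k hk X
  unfold P at h1
  have h2 := bd_add_D X
  rw [card_pairs] at h2
  have h2' : (bd X : ℝ) + D X = (n : ℝ) * ((n : ℝ) - 1) / 2 * X.card := by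
    rw [← Nat.cast_choose_two ℝ n]; exact_mod_cast h2
  have hf : (0 : ℝ) < (k.factorial : ℝ) := by exact_mod_cast Nat.factorial_pos k
  rw [Nat.cast_choose_two] at h1
  have h3 : (D X : ℝ) + X.card ≤ (X.card : ℝ) ^ 2 / (k.factorial : ℝ)
      + (k : ℝ) * ((k : ℝ) - 1) / 2 * X.card := by
    have h4 : (k.factorial : ℝ) * ((D X : ℝ) + X.card) ≤ (k.factorial : ℝ) *
        ((X.card : ℝ) ^ 2 / (k.factorial : ℝ) + (k : ℝ) * ((k : ℝ) - 1) / 2 * X.card) := by
      have h5 : (k.factorial : ℝ) *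
        ((X.card : ℝ) ^ 2 / (k.factorial : ℝ) + (k : ℝ) * ((k : ℝ) - 1) / 2 * X.card) =
          (X.card : ℝ) ^ 2 + k.factorial * ((k : ℝ) * ((k : ℝ) - 1) / 2) * X.card := by
        field_simp
      rw [h5]
      linarith
    exact le_of_mul_le_mul_left h4 hf
  linarith

/-- middle sizes -/
theorem bd_ge_mid {k : ℕ} (X : Finset (Perm (Fin (k + 2)))) (h1 : (k + 1).factorial ≤ X.card)
    (h2 : X.card + (k + 1).factorial ≤ (k + 2).factorial) :
    (k + 1) * ((k + 1) * k.factorial) ≤ bd X := by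
  have h3 := bd_ge (k := k + 1) (by omega) X
  have hf : (0 : ℝ) < ((k + 1).factorial : ℝ) := by exact_mod_cast Nat.factorial_pos (k + 1)
  obtain ⟨x, hx⟩ : ∃ x : ℝ, (X.card : ℝ) = x * ((k + 1).factorial : ℝ) :=
    ⟨(X.card : ℝ) / ((k + 1).factorial : ℝ), by field_simp⟩
  have h1' : (1 : ℝ) ≤ x := by
    have h4 : ((k + 1).factorial : ℝ) ≤ (X.card : ℝ) := by exact_mod_cast h1
    rw [hx] at h4
    exact (le_mul_iff_one_le_left hf).1 h4
  have h2' : x + 1 ≤ (k : ℝ) + 2 := by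
    have h4 : (X.card : ℝ) + ((k + 1).factorial : ℝ) ≤ ((k + 2 : ℕ) : ℝ) * ((k + 1).factorial : ℝ) := by
      have h5 := h2
      rw [Nat.factorial_succ (k + 1)] at h5
      exact_mod_cast h5
    rw [hx] at h4
    push_cast at h4
    have h5 : (x + 1) * ((k + 1).factorial : ℝ) ≤ ((k : ℝ) + 2) * ((k + 1).factorial : ℝ) := by
      linarith
    exact le_of_mul_le_mul_right h5 hf
  rw [hx] at h3
  push_cast at h3
  have h4 : (x * ((k + 1).factorial : ℝ)) ^ 2 / ((k + 1).factorial : ℝ) =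
      x ^ 2 * ((k + 1).factorial : ℝ) := by
    field_simp
  rw [h4] at h3
  have h5 : ((k : ℝ) + 1) * ((k + 1).factorial : ℝ) ≤ (bd X : ℝ) := by
    have h6 : 0 ≤ (x - 1) * ((k : ℝ) + 1 - x) := mul_nonneg (by linarith) (by linarith)
    nlinarith [mul_nonneg h6 hf.le]
  have h6 : (((k + 1) * ((k + 1) * k.factorial) : ℕ) : ℝ) ≤ (bd X : ℝ) := by
    rw [← Nat.factorial_succ]
    push_cast
    exact h5
  exact_mod_cast h6

private theorem bd_ge_low {k : ℕ} (hk : 1 ≤ k) (X : Finset (Perm (Fin (k + 2))))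
    (h1 : k.factorial ≤ X.card) (h2 : X.card ≤ (k + 1).factorial) :
    2 * (k * k.factorial) ≤ bd X := by
  have h3 := bd_ge (k := k) hk X
  have hf : (0 : ℝ) < (k.factorial : ℝ) := by exact_mod_cast Nat.factorial_pos k
  obtain ⟨x, hx⟩ : ∃ x : ℝ, (X.card : ℝ) = x * (k.factorial : ℝ) :=
    ⟨(X.card : ℝ) / (k.factorial : ℝ), by field_simp⟩
  have h1' : (1 : ℝ) ≤ x := by
    have h4 : (k.factorial : ℝ) ≤ (X.card : ℝ) := by exact_mod_cast h1
    rw [hx] at h4
    exact (le_mul_iff_one_le_left hf).1 h4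
  have h2' : x ≤ (k : ℝ) + 1 := by
    have h4 : (X.card : ℝ) ≤ ((k + 1 : ℕ) : ℝ) * (k.factorial : ℝ) := by
      have h5 := h2
      rw [Nat.factorial_succ k] at h5
      exact_mod_cast h5
    rw [hx] at h4
    push_cast at h4
    exact le_of_mul_le_mul_right h4 hf
  rw [hx] at h3
  push_cast at h3
  have h4 : (x * (k.factorial : ℝ)) ^ 2 / (k.factorial : ℝ) = x ^ 2 * (k.factorial : ℝ) := by
    field_simp
  rw [h4] at h3
  have hk' : (1 : ℝ) ≤ k := by exact_mod_cast hk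
  have h5 : 2 * ((k : ℝ) * (k.factorial : ℝ)) ≤ (bd X : ℝ) := by
    have h6 : 0 ≤ (x - 1) * (2 * (k : ℝ) + 1 - x) := mul_nonneg (by linarith) (by linarith)
    nlinarith [mul_nonneg h6 hf.le]
  exact_mod_cast h5

/-- all but the smallest and largest sizes -/
theorem bd_ge_all {k : ℕ} (hk : 1 ≤ k) (X : Finset (Perm (Fin (k + 2))))
    (h1 : k.factorial ≤ X.card) (h2 : X.card + k.factorial ≤ (k + 2).factorial) :
    2 * (k * k.factorial) ≤ bd X := by
  have hc : Xᶜ.card + X.card = (k + 2).factorial := by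
    have h3 := Finset.card_add_card_compl X
    rw [Fintype.card_perm, Fintype.card_fin] at h3
    omega
  rcases Nat.le_total X.card (k + 1).factorial with h3 | h3
  · exact bd_ge_low hk X h1 h3
  · rcases Nat.le_total (X.card + (k + 1).factorial) (k + 2).factorial with h4 | h4
    · have h5 := bd_ge_mid X h3 h4
      refine le_trans ?_ h5
      nlinarith [Nat.zero_le (k * k * k.factorial), Nat.factorial_pos k]
    · rw [← bd_compl]
      exact bd_ge_low hk Xᶜ (by omega) (by omega)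

/-- (iv) the conjecture up to a factor, all sizes between `(n-1)!` and `n! - (n-1)!` -/
theorem bd_rel_of {n : ℕ} (hn : 3 ≤ n) (A : Finset (Perm (Fin n)))
    (h3 : 4 * bd (lexInit n A.card) ≤ 4 * bd A + (n - 2) * (n - 2).factorial)
    (h1 : (n - 1).factorial ≤ A.card) (h2 : A.card + (n - 1).factorial ≤ n.factorial) :
    (4 * n - 1) * bd (lexInit n A.card) ≤ 4 * n * bd A := by
  have h4 := (bd_lex_eq (n := n) (m := A.card) (by omega)).2
  obtain ⟨k, rfl⟩ : ∃ k, n = k + 2 := ⟨n - 2, by omega⟩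
  have e1 : k + 2 - 2 = k := by omega
  have e2 : k + 2 - 1 = k + 1 := by omega
  rw [e2] at h1 h2
  rw [e1] at h3
  have h5 := bd_ge_mid (lexInit (k + 2) A.card) (by rw [h4]; exact h1) (by rw [h4]; exact h2)
  have h6 : (k + 2) * (k * k.factorial) ≤ bd (lexInit (k + 2) A.card) := by
    refine le_trans ?_ h5
    nlinarith [Nat.factorial_pos k]
  obtain ⟨L, hL⟩ : ∃ L, L = bd (lexInit (k + 2) A.card) := ⟨_, rfl⟩
  rw [← hL] at h3 h6 ⊢
  have h7 : 4 * (k + 2) - 1 = 4 * k + 7 := by omega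
  rw [h7]
  nlinarith [Nat.mul_le_mul_left (k + 2) h3]

/-- (v) the conjecture up to a factor, all sizes between `(n-2)!` and `n! - (n-2)!` -/
theorem bd_rel_of' {n : ℕ} (hn : 3 ≤ n) (A : Finset (Perm (Fin n)))
    (h3 : 4 * bd (lexInit n A.card) ≤ 4 * bd A + (n - 2) * (n - 2).factorial)
    (h1 : (n - 2).factorial ≤ A.card) (h2 : A.card + (n - 2).factorial ≤ n.factorial) :
    7 * bd (lexInit n A.card) ≤ 8 * bd A := by
  have h4 := (bd_lex_eq (n := n) (m := A.card) (by omega)).2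
  obtain ⟨k, rfl⟩ : ∃ k, n = k + 2 := ⟨n - 2, by omega⟩
  have e1 : k + 2 - 2 = k := by omega
  rw [e1] at h1 h2 h3
  have h5 := bd_ge_all (by omega) (lexInit (k + 2) A.card) (by rw [h4]; exact h1)
    (by rw [h4]; exact h2)
  omega

theorem bd_rel {n : ℕ} (hn : 100 ≤ n) (A : Finset (Perm (Fin n))) (h1 : (n - 1).factorial ≤ A.card)
    (h2 : A.card + (n - 1).factorial ≤ n.factorial) :
    (4 * n - 1) * bd (lexInit n A.card) ≤ 4 * n * bd A :=
  bd_rel_of (by omega) A (bd_all hn A) h1 h2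

theorem bd_rel' {n : ℕ} (hn : 100 ≤ n) (A : Finset (Perm (Fin n))) (h1 : (n - 2).factorial ≤ A.card)
    (h2 : A.card + (n - 2).factorial ≤ n.factorial) :
    7 * bd (lexInit n A.card) ≤ 8 * bd A :=
  bd_rel_of' (by omega) A (bd_all hn A) h1 h2

end Pool.H19.TA
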